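import Pool.Agent.W_MP_cc6734_lc.Main

open Cardinal Ordinal Set

namespace Pool.Agent.W_MP_cc6734_lc

universe u

theorem power_two_one (h1 : (2 : Cardinal.{u}) ^ (ℵ₁ : Cardinal.{u}) = ℵ_ 2) :
    (ℵ_ 2 : Cardinal.{u}) ^ (ℵ₁ : Cardinal.{u}) ≤ ℵ_ 2 := by
  rw [← h1, ← power_mul, mul_eq_self (aleph0_le_aleph 1)]

theorem power_one_zero (h0 : (2 : Cardinal.{u}) ^ (ℵ₀ : Cardinal.{u}) = ℵ₁) :
    (ℵ₁ : Cardinal.{u}) ^ (ℵ₀ : Cardinal.{u}) ≤ ℵ₁ := by
  rw [← h0, ← power_mul, aleph0_mul_aleph0]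

theorem bounded_omega_three (s : Set (ω_ 3 : Ordinal.{u}).ToType) (hs : #s ≤ ℵ_ 2) :
    ∃ b, ∀ x ∈ s, x < b := by
  by_contra hcon
  push Not at hcon
  have hcof : IsCofinal s := by
    intro a
    obtain ⟨x, hx, hx'⟩ := hcon a
    exact ⟨x, hx, hx'⟩
  have h1 := Order.cof_le hcof
  have h2 : Order.cof (ω_ 3 : Ordinal.{u}).ToType = ℵ_ 3 := by
    rw [Ordinal.cof_toType]
    have : (3 : Ordinal.{u}) = 2 + 1 := by norm_num
    rw [this, Cardinal.cof_omega_add_one]
  rw [h2] at h1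
  have h3 := h1.trans hs
  rw [← not_lt, lt_aleph_three_iff] at h3
  exact h3 le_rfl

theorem Iio_omega_three (a : (ω_ 3 : Ordinal.{u}).ToType) : #(Iio a) ≤ ℵ_ 2 := by
  have h := card_typein (r := (· < · : (ω_ 3 : Ordinal.{u}).ToType → _ → Prop)) a
  have h2 := typein_lt_self (o := (ω_ 3 : Ordinal.{u})) a
  rw [lt_omega_iff_card_lt, lt_aleph_three_iff] at h2
  refine le_trans (le_of_eq ?_) h2
  exact h

section Types

variable {L : Type u} [LinearOrder L] [WellFoundedLT L]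

/-- a set of large order type contains sets of any smaller order type -/
theorem exists_emb (H : Set L) (o : Ordinal.{u}) (ho : o ≤ typeLT H) :
    ∃ f : o.ToType → L, StrictMono f ∧ ∀ x, f x ∈ H := by
  rw [← type_toType o, type_le_iff] at ho
  obtain ⟨f⟩ := ho
  refine ⟨fun x => (f x).1, ?_, fun x => (f x).2⟩
  intro x y hxy
  exact f.map_rel_iff.2 hxy

theorem le_type_of_le_mk (H : Set L) (a : Ordinal.{u}) (h : ℵ_ a ≤ #H) : ω_ a ≤ typeLT H := by
  by_contra hlt
  rw [not_le, lt_omega_iff_card_lt, card_type] at hlt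
  exact absurd h (not_le.2 hlt)

/-- gluing -/
theorem exists_type_add (H C : Set L) (a b : Ordinal.{u}) (hH : ℵ_ a ≤ #H) (hC : ℵ_ b ≤ #C)
    (hHC : ∀ x ∈ H, ∀ y ∈ C, x < y) :
    ∃ R : Set L, R ⊆ H ∪ C ∧ typeLT R = ω_ a + ω_ b := by
  obtain ⟨f, hf, hfH⟩ := exists_emb H (ω_ a) (le_type_of_le_mk H a hH)
  obtain ⟨g, hg, hgC⟩ := exists_emb C (ω_ b) (le_type_of_le_mk C b hC)
  let k : (ω_ a).ToType ⊕ (ω_ b).ToType → L := Sum.elim f g
  let r := Sum.Lex (· < · : (ω_ a).ToType → (ω_ a).ToType → Prop)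
      (· < · : (ω_ b).ToType → (ω_ b).ToType → Prop)
  have hk : ∀ x y, r x y → k x < k y := by
    intro x y hxy
    cases hxy with
    | inl h => exact hf h
    | inr h => exact hg h
    | sep x y => exact hHC _ (hfH x) _ (hgC y)
  let k' : r ↪r (· < · : L → L → Prop) := RelEmbedding.ofMonotone k hk
  have hk' : ∀ x, k' x = k x := fun x => rfl
  refine ⟨range k, ?_, ?_⟩
  · rintro _ ⟨x, rfl⟩
    rcases x with x | x
    · exact Or.inl (hfH x)
    · exact Or.inr (hgC x)
  · have e : r ≃r (· < · : range k → range k → Prop) :=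
      { toEquiv := Equiv.ofInjective k (fun x y hxy => k'.injective hxy)
        map_rel_iff' := by
          intro x y
          exact k'.map_rel_iff }
    have h2 := type_sum_lex (· < · : (ω_ a).ToType → (ω_ a).ToType → Prop)
      (· < · : (ω_ b).ToType → (ω_ b).ToType → Prop)
    rw [type_toType, type_toType] at h2
    rw [← h2]
    exact (RelIso.ordinalType_congr e).symm

end Types

/-- The partition relation in set form, for colourings given as functions on ordered pairs. -/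
theorem arrow_pairs (h0 : (2 : Cardinal.{u}) ^ (ℵ₀ : Cardinal.{u}) = ℵ₁)
    (h1 : (2 : Cardinal.{u}) ^ (ℵ₁ : Cardinal.{u}) = ℵ_ 2)
    (c : (ω_ 3 : Ordinal.{u}).ToType → (ω_ 3 : Ordinal.{u}).ToType → Bool) :
    (∃ H : Set (ω_ 3 : Ordinal.{u}).ToType, typeLT H = ω_ 2 + ω_ 1 ∧ Hom c false H) ∨
    (∃ H : Set (ω_ 3 : Ordinal.{u}).ToType, typeLT H = ω_ 2 + ω ∧ Hom c true H) := by
  by_contra hcon
  push Not at hcon
  obtain ⟨hc0, hc1⟩ := hcon
  refine main_false bounded_omega_three Iio_omega_three (power_two_one h1) (power_one_zero h0)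
    c ?_ ?_
  · intro H C hH hC hHC hH' hC' hHC'
    obtain ⟨R, hR, hRt⟩ := exists_type_add H C 2 1 hH hC hHC
    refine hc0 R hRt ?_
    intro x hx y hy hxy
    rcases hR hx with h | h <;> rcases hR hy with h' | h'
    · exact hH' x h y h' hxy
    · exact hHC' x h y h'
    · exact absurd hxy (not_lt.2 (hHC y h' x h).le)
    · exact hC' x h y h' hxy
  · intro H B hH hB hHB hH' hB' hHB'
    have hB0 : ℵ_ 0 ≤ #B := by
      rw [aleph_zero]
      have := hB.to_subtype
      exact aleph0_le_mk _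
    obtain ⟨R, hR, hRt⟩ := exists_type_add H B 2 0 hH hB0 hHB
    rw [omega_zero] at hRt
    refine hc1 R hRt ?_
    intro x hx y hy hxy
    rcases hR hx with h | h <;> rcases hR hy with h' | h'
    · exact hH' x h y h' hxy
    · exact hHB' x h y h'
    · exact absurd hxy (not_lt.2 (hHB y h' x h).le)
    · exact hB' x h y h' hxy

end Pool.Agent.W_MP_cc6734_lc
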