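import Mathlib

open Cardinal Ordinal Set

namespace Pool.Agent.W_MP_cc6734_lc

universe u

theorem lt_aleph_two_iff {c : Cardinal.{u}} : c < ℵ_ 2 ↔ c ≤ ℵ₁ := by
  have h : (ℵ_ 2 : Cardinal.{u}) = Order.succ ℵ₁ := by
    have : (2 : Ordinal.{u}) = 1 + 1 := by norm_num
    rw [this, ← succ_aleph]
  rw [h, Order.lt_succ_iff]

theorem lt_aleph_three_iff {c : Cardinal.{u}} : c < ℵ_ 3 ↔ c ≤ ℵ_ 2 := by
  have h : (ℵ_ 3 : Cardinal.{u}) = Order.succ (ℵ_ 2) := by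
    have : (3 : Ordinal.{u}) = 2 + 1 := by norm_num
    rw [this, ← succ_aleph]
  rw [h, Order.lt_succ_iff]

theorem aleph_one_le_aleph_two : (ℵ₁ : Cardinal.{u}) ≤ ℵ_ 2 := by
  rw [aleph_le_aleph]; norm_num

theorem mk_iUnion_le_of {ι α : Type u} {f : ι → Set α} {κ : Cardinal.{u}} (hκ : ℵ₀ ≤ κ)
    (hι : #ι ≤ κ) (hf : ∀ i, #(f i) ≤ κ) : #(⋃ i, f i) ≤ κ := by
  have h1 : (⨆ i, #(f i)) ≤ κ := ciSup_le' hf
  calc #(⋃ i, f i) ≤ #ι * ⨆ i, #(f i) := mk_iUnion_le f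
    _ ≤ κ * κ := mul_le_mul' hι h1
    _ = κ := mul_eq_self hκ

theorem mk_union_le_of {α : Type u} {s t : Set α} {κ : Cardinal.{u}} (hκ : ℵ₀ ≤ κ)
    (hs : #s ≤ κ) (ht : #t ≤ κ) : #(↥(s ∪ t)) ≤ κ := by
  calc #(↥(s ∪ t)) ≤ #s + #t := mk_union_le s t
    _ ≤ κ + κ := add_le_add hs ht
    _ = κ := add_eq_self hκ

set_option linter.unusedSectionVars false

section Abstract

variable {L : Type u} [LinearOrder L] [WellFoundedLT L]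

/-- homogeneous set -/
def Hom (c : L → L → Bool) (i : Bool) (H : Set L) : Prop :=
  ∀ x ∈ H, ∀ y ∈ H, x < y → c x y = i

theorem exists_greedy (r : L → L → Prop) (P : Set L) :
    ∃ G : Set L, ∀ x, x ∈ G ↔ x ∈ P ∧ ∀ y < x, y ∈ G → r y x := by
  let f : L → Prop := WellFounded.fix (r := (· < ·)) (C := fun _ => Prop) wellFounded_lt
    (fun x ih => x ∈ P ∧ ∀ y (h : y < x), ih y h → r y x)
  refine ⟨{x | f x}, fun x => ?_⟩
  show f x ↔ _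
  have : f x = (x ∈ P ∧ ∀ y (_ : y < x), f y → r y x) := by
    simp only [f]
    rw [WellFounded.fix_eq]
  rw [this]
  rfl

/-- positivity of a set at a point: every pattern over at most `ℵ₁` many predecessors is copied
by an element of the set -/
def Pos (c : L → L → Bool) (δ : L) (X : Set L) : Prop :=
  ∀ z : Set L, z ⊆ Iio δ → #z ≤ ℵ₁ → ∃ γ ∈ X, γ < δ ∧ ∀ x ∈ z, x < γ ∧ c x γ = c x δ

theorem Pos.mono {c : L → L → Bool} {δ : L} {X Y : Set L} (h : Pos c δ X)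
    (hXY : ∀ x ∈ X, x < δ → x ∈ Y) : Pos c δ Y := by
  intro z hz hz'
  obtain ⟨γ, h1, h2, h3⟩ := h z hz hz'
  exact ⟨γ, hXY γ h1 h2, h2, h3⟩

/-- completeness -/
theorem Pos.exists_of_iUnion {c : L → L → Bool} {δ : L} {X : Set L} {ι : Type u}
    (hι : #ι ≤ ℵ₁) (Y : ι → Set L) (h : Pos c δ X)
    (hXY : ∀ x ∈ X, x < δ → ∃ j, x ∈ Y j) : ∃ j, Pos c δ (Y j) := by
  by_contra hcon
  push Not at hcon
  unfold Pos at hcon
  push Not at hcon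
  choose z hz hz' hz'' using hcon
  have hU : #(⋃ j, z j) ≤ ℵ₁ := by
    exact mk_iUnion_le_of (aleph0_le_aleph 1) hι hz'
  obtain ⟨γ, h1, h2, h3⟩ := h (⋃ j, z j) (iUnion_subset hz) hU
  obtain ⟨j, hj⟩ := hXY γ h1 h2
  obtain ⟨x, hx, hx'⟩ := hz'' j γ hj h2
  have := h3 x (mem_iUnion.2 ⟨j, hx⟩)
  exact hx' this.1 this.2

/-- relativisation -/
theorem Pos.inter {c : L → L → Bool} {δ : L} {X : Set L} (h : Pos c δ X) {z : Set L}
    (hz : z ⊆ Iio δ) (hz' : #z ≤ ℵ₁) :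
    Pos c δ {γ | γ ∈ X ∧ ∀ x ∈ z, x < γ ∧ c x γ = c x δ} := by
  intro w hw hw'
  have hU : #(↥(z ∪ w)) ≤ ℵ₁ := by
    exact mk_union_le_of (aleph0_le_aleph 1) hz' hw'
  obtain ⟨γ, h1, h2, h3⟩ := h (z ∪ w) (union_subset hz hw) hU
  exact ⟨γ, ⟨h1, fun x hx => h3 x (Or.inl hx)⟩, h2, fun x hx => h3 x (Or.inr hx)⟩

/-- long homogeneous sets inside positive sets -/
theorem Pos.exists_hom {c : L → L → Bool} {δ : L} {X : Set L} {i : Bool} (h : Pos c δ X)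
    (hX : ∀ x ∈ X, x < δ → c x δ = i) :
    ∃ H : Set L, (∀ x ∈ H, x ∈ X ∧ x < δ) ∧ ℵ_ 2 ≤ #H ∧ Hom c i H := by
  obtain ⟨G, hG⟩ := exists_greedy (fun y x => c y x = i) (X ∩ Iio δ)
  have hGX : ∀ x ∈ G, x ∈ X ∧ x < δ := fun x hx => ((hG x).1 hx).1
  refine ⟨G, hGX, ?_, fun x hx y hy hxy => ((hG y).1 hy).2 x hxy hx⟩
  by_contra hlt
  rw [not_le, lt_aleph_two_iff] at hlt
  obtain ⟨γ, h1, h2, h3⟩ := h G (fun x hx => (hGX x hx).2) hlt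
  have : γ ∈ G := by
    rw [hG]
    refine ⟨⟨h1, h2⟩, fun y hy hyG => ?_⟩
    rw [(h3 y hyG).2]
    exact hX y (hGX y hyG).1 (hGX y hyG).2
  exact lt_irrefl _ (h3 γ this).1

/-- closed points of cofinality `ω₂` exist -/
theorem exists_closed
    (hbd : ∀ s : Set L, #s ≤ ℵ_ 2 → ∃ b, ∀ x ∈ s, x < b)
    (hin : ∀ a : L, #(Iio a) ≤ ℵ_ 2)
    (h21 : (ℵ_ 2 : Cardinal.{u}) ^ (ℵ₁ : Cardinal.{u}) ≤ ℵ_ 2)
    (g : Set L → Set L → L) :
    ∃ δ, ∀ z0 z1 : Set L, z0 ⊆ Iio δ → z1 ⊆ Iio δ → #z0 ≤ ℵ₁ → #z1 ≤ ℵ₁ → g z0 z1 < δ := by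
  classical
  let S : L → Type u := fun a => {t : Set L // t ⊆ Iio a ∧ #t ≤ ℵ₁}
  have hS : ∀ a, #(S a) ≤ ℵ_ 2 := by
    intro a
    refine (mk_bounded_subset_le (Iio a) ℵ₁).trans ?_
    refine (power_le_power_right (max_le (hin a) (aleph0_le_aleph 2))).trans h21
  let V : L → Set L := fun a => range (fun p : S a × S a => g p.1.1 p.2.1)
  have hV : ∀ a, #(V a) ≤ ℵ_ 2 := by
    intro a
    calc #(V a) ≤ #(S a × S a) := mk_range_le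
      _ = #(S a) * #(S a) := by rw [mul_def]
      _ ≤ ℵ_ 2 * ℵ_ 2 := mul_le_mul' (hS a) (hS a)
      _ = ℵ_ 2 := mul_eq_self (aleph0_le_aleph 2)
  have key : ∀ s : Set L, ∃ b, #s ≤ ℵ_ 2 → ∀ a ∈ s, a < b ∧ ∀ v ∈ V a, v < b := by
    intro s
    by_cases hs : #s ≤ ℵ_ 2
    · have hU : #(↥(s ∪ ⋃ a : s, V a.1)) ≤ ℵ_ 2 := by
        exact mk_union_le_of (aleph0_le_aleph 2) hs
          (mk_iUnion_le_of (aleph0_le_aleph 2) hs fun a => hV a.1)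
      obtain ⟨b, hb⟩ := hbd _ hU
      exact ⟨b, fun _ a ha => ⟨hb a (Or.inl ha), fun v hv =>
        hb v (Or.inr (mem_iUnion.2 ⟨⟨a, ha⟩, hv⟩))⟩⟩
    · obtain ⟨b, -⟩ := hbd ∅ (by simp)
      exact ⟨b, fun h => absurd h hs⟩
  choose B hB using key
  let K := (ω_ 2 : Ordinal.{u}).ToType
  have hK : #K = ℵ_ 2 := by
    simp [K]
  let f : K → L := WellFounded.fix (r := (· < ·)) (C := fun _ => L) wellFounded_lt
    (fun i ih => B (range (fun j : Iio i => ih j.1 j.2)))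
  have hfe : ∀ i, f i = B (range (fun j : Iio i => f j.1)) := by
    intro i
    simp only [f]
    rw [WellFounded.fix_eq]
  have hf : ∀ i j, j < i → f j < f i ∧ ∀ v ∈ V (f j), v < f i := by
    intro i j hj
    have h1 : #(range (fun j : Iio i => f j.1)) ≤ ℵ_ 2 := by
      refine mk_range_le.trans ?_
      rw [← hK]
      exact mk_set_le _
    have := hB _ h1 (f j) ⟨⟨j, hj⟩, rfl⟩
    rw [hfe i]
    exact this
  have hbK : ∀ s : Set K, #s ≤ ℵ₁ → ∃ i, ∀ x ∈ s, x < i := by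
    intro s hs
    by_contra hcon
    push Not at hcon
    have hcof : IsCofinal s := by
      intro a
      obtain ⟨x, hx, hx'⟩ := hcon a
      exact ⟨x, hx, hx'⟩
    have h1 := Order.cof_le hcof
    have h2 : Order.cof K = ℵ_ 2 := by
      rw [Ordinal.cof_toType]
      have : (2 : Ordinal.{u}) = 1 + 1 := by norm_num
      rw [this, Cardinal.cof_omega_add_one]
    rw [h2] at h1
    have h3 := h1.trans hs
    rw [← not_lt, lt_aleph_two_iff] at h3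
    exact h3 le_rfl
  obtain ⟨b0, hb0⟩ := hbd (range f) (mk_range_le.trans hK.le)
  have hne : {b : L | ∀ i, f i < b}.Nonempty := ⟨b0, fun i => hb0 _ ⟨i, rfl⟩⟩
  let δ := WellFounded.min (wellFounded_lt (α := L)) {b : L | ∀ i, f i < b} hne
  have hδ : ∀ i, f i < δ := WellFounded.min_mem (wellFounded_lt (α := L)) {b : L | ∀ i, f i < b} hne
  have hδ' : ∀ x < δ, ∃ i, x ≤ f i := by
    intro x hx
    by_contra hcon
    push Not at hcon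
    exact WellFounded.not_lt_min (wellFounded_lt (α := L)) {b : L | ∀ i, f i < b} hcon hx
  have hsmall : ∀ z : Set L, z ⊆ Iio δ → #z ≤ ℵ₁ → ∃ i, z ⊆ Iio (f i) := by
    intro z hz hz'
    have : ∀ x : z, ∃ i, x.1 ≤ f i := fun x => hδ' x.1 (hz x.2)
    choose I hI using this
    obtain ⟨i, hi⟩ := hbK (range I) (mk_range_le.trans hz')
    refine ⟨i, fun x hx => ?_⟩
    exact (hI ⟨x, hx⟩).trans_lt (hf _ _ (hi _ ⟨⟨x, hx⟩, rfl⟩)).1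
  refine ⟨δ, fun z0 z1 h0 h1 h0' h1' => ?_⟩
  obtain ⟨i0, hi0⟩ := hsmall z0 h0 h0'
  obtain ⟨i1, hi1⟩ := hsmall z1 h1 h1'
  obtain ⟨i, hi⟩ := hbK {i0, i1} (((Set.toFinite {i0, i1}).countable.le_aleph0).trans
    (aleph0_le_aleph 1))
  have hii0 : i0 < i := hi i0 (by simp)
  have hii1 : i1 < i := hi i1 (by simp)
  have hz0 : z0 ⊆ Iio (f i) := fun x hx => lt_trans (hi0 hx) (hf _ _ hii0).1
  have hz1 : z1 ⊆ Iio (f i) := fun x hx => lt_trans (hi1 hx) (hf _ _ hii1).1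
  obtain ⟨i', hi'⟩ := hbK {i} (((Set.toFinite {i}).countable.le_aleph0).trans
    (aleph0_le_aleph 1))
  have hlt := (hf i' i (hi' i (by simp))).2 (g z0 z1) ⟨(⟨z0, hz0, h0'⟩, ⟨z1, hz1, h1'⟩), rfl⟩
  exact hlt.trans (hδ i')

/-- general reflection lemma -/
theorem exists_reflect (c : L → L → Bool) (r : L → L → Prop) (P : Set L)
    (hb : ∀ G : Set L, (∀ x ∈ G, x ∈ P) → (∀ x ∈ G, ∀ y ∈ G, y < x → r y x) →
      ∃ b, ∀ x ∈ G, x < b) :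
    ∃ g : Set L → Set L → L, ∀ δ ∈ P,
      (∀ z0 z1 : Set L, z0 ⊆ Iio δ → z1 ⊆ Iio δ → #z0 ≤ ℵ₁ → #z1 ≤ ℵ₁ → g z0 z1 < δ) →
      Pos c δ {y | y ∈ P ∧ ¬ r y δ} := by
  have h1 : ∀ z0 z1 : Set L, ∃ b : L, ∃ G : Set L, (∀ x, x ∈ G ↔
      (x ∈ P ∧ (∀ y ∈ z0, y < x ∧ c y x = false) ∧ (∀ y ∈ z1, y < x ∧ c y x = true)) ∧
        ∀ y < x, y ∈ G → r y x) ∧ ∀ x ∈ G, x < b := by
    intro z0 z1
    obtain ⟨G, hG⟩ := exists_greedy r
      {x | x ∈ P ∧ (∀ y ∈ z0, y < x ∧ c y x = false) ∧ (∀ y ∈ z1, y < x ∧ c y x = true)}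
    obtain ⟨b, hb⟩ := hb G (fun x hx => ((hG x).1 hx).1.1)
      (fun x hx y hy hyx => ((hG x).1 hx).2 y hyx hy)
    exact ⟨b, G, hG, hb⟩
  choose g G hG hg using h1
  refine ⟨g, fun δ hδ hcl z hz hz' => ?_⟩
  by_contra hcon
  push Not at hcon
  set z0 : Set L := {x | x ∈ z ∧ c x δ = false} with hz0
  set z1 : Set L := {x | x ∈ z ∧ c x δ = true} with hz1
  have h0 : z0 ⊆ z := fun x hx => hx.1
  have h1 : z1 ⊆ z := fun x hx => hx.1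
  have hlt := hcl z0 z1 (h0.trans hz) (h1.trans hz) ((mk_le_mk_of_subset h0).trans hz')
    ((mk_le_mk_of_subset h1).trans hz')
  have hmem : δ ∈ G z0 z1 := by
    rw [hG]
    refine ⟨⟨hδ, fun y hy => ⟨hz hy.1, hy.2⟩, fun y hy => ⟨hz hy.1, hy.2⟩⟩, fun y hy hyG => ?_⟩
    by_contra hr
    have hy2 := ((hG z0 z1 y).1 hyG).1
    obtain ⟨x, hx, hx'⟩ := hcon y ⟨hy2.1, hr⟩ hy
    rcases hc : c x δ with _ | _
    · have := hy2.2.1 x ⟨hx, hc⟩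
      exact hx' this.1 (this.2.trans hc.symm)
    · have := hy2.2.2 x ⟨hx, hc⟩
      exact hx' this.1 (this.2.trans hc.symm)
  exact lt_irrefl _ ((hg z0 z1 δ hmem).trans hlt)

/-- an Erdos-Dushnik-Miller type statement -/
theorem exists_hom_false
    (hbd : ∀ s : Set L, #s ≤ ℵ_ 2 → ∃ b, ∀ x ∈ s, x < b)
    (hin : ∀ a : L, #(Iio a) ≤ ℵ_ 2)
    (h21 : (ℵ_ 2 : Cardinal.{u}) ^ (ℵ₁ : Cardinal.{u}) ≤ ℵ_ 2)
    (c : L → L → Bool) (hb : ∀ G : Set L, Hom c true G → ∃ b, ∀ x ∈ G, x < b)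
    (g0 : Set L → Set L → L) (P : Set L)
    (hP : ∀ δ, (∀ z0 z1 : Set L, z0 ⊆ Iio δ → z1 ⊆ Iio δ → #z0 ≤ ℵ₁ → #z1 ≤ ℵ₁ → g0 z0 z1 < δ) →
      δ ∈ P) :
    ∃ H : Set L, H ⊆ P ∧ ℵ_ 2 ≤ #H ∧ Hom c false H := by
  obtain ⟨g, hg⟩ := exists_reflect c (fun y x => c y x = true) P
    (fun G _ h => hb G (fun x hx y hy hxy => h y hy x hx hxy))
  obtain ⟨δ, hδ⟩ := exists_closed hbd hin h21 (fun z0 z1 => max (g0 z0 z1) (g z0 z1))
  have h1 : δ ∈ P := hP δ (fun z0 z1 a b c d => (le_max_left _ _).trans_lt (hδ z0 z1 a b c d))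
  have h2 := hg δ h1 (fun z0 z1 a b c d => (le_max_right _ _).trans_lt (hδ z0 z1 a b c d))
  obtain ⟨H, hH1, hH2, hH3⟩ := h2.exists_hom (i := false) (fun x hx _ => by simpa using hx.2)
  exact ⟨H, fun x hx => (hH1 x hx).1.1, hH2, hH3⟩

end Abstract

end Pool.Agent.W_MP_cc6734_lc
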