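import Pool.Agent.W_MP_cc6734_lc.Basic

open Cardinal Ordinal Set

namespace Pool.Agent.W_MP_cc6734_lc

universe u

set_option linter.unusedSectionVars false

section Abstract

variable {L : Type u} [LinearOrder L] [WellFoundedLT L]

/-- sets homogeneous in colour `true` are bounded -/
theorem bounded_true
    (hbd : ∀ s : Set L, #s ≤ ℵ_ 2 → ∃ b, ∀ x ∈ s, x < b)
    (hin : ∀ a : L, #(Iio a) ≤ ℵ_ 2)
    (c : L → L → Bool)
    (hA1 : ∀ H B : Set L, ℵ_ 2 ≤ #H → B.Infinite → (∀ x ∈ H, ∀ y ∈ B, x < y) →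
      Hom c true H → Hom c true B → (∀ x ∈ H, ∀ y ∈ B, c x y = true) → False)
    (G : Set L) (hG : Hom c true G) : ∃ b, ∀ x ∈ G, x < b := by
  by_contra hcon
  have h1 : ℵ_ 2 ≤ #G := by
    by_contra hlt
    exact hcon (hbd G (not_le.1 hlt).le)
  obtain ⟨H, hHG, hH⟩ := le_mk_iff_exists_subset.1 h1
  obtain ⟨b, hb⟩ := hbd H hH.le
  refine hA1 H {x | x ∈ G ∧ b ≤ x} hH.ge ?_ (fun x hx y hy => (hb x hx).trans_le hy.2)
    (fun x hx y hy hxy => hG x (hHG hx) y (hHG hy) hxy)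
    (fun x hx y hy hxy => hG x hx.1 y hy.1 hxy)
    (fun x hx y hy => hG x (hHG hx) y hy.1 ((hb x hx).trans_le hy.2))
  intro hfin
  apply hcon
  obtain ⟨b', hb'⟩ := hbd ({x | x ∈ G ∧ b ≤ x} ∪ Iio b) (mk_union_le_of (aleph0_le_aleph 2)
    (hfin.countable.le_aleph0.trans (aleph0_le_aleph 2)) (hin b))
  refine ⟨b', fun x hx => hb' x ?_⟩
  rcases lt_or_ge x b with h | h
  · exact Or.inr h
  · exact Or.inl ⟨hx, h⟩

/-- existence of a rich point -/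
theorem exists_rich
    (hbd : ∀ s : Set L, #s ≤ ℵ_ 2 → ∃ b, ∀ x ∈ s, x < b)
    (hin : ∀ a : L, #(Iio a) ≤ ℵ_ 2)
    (h21 : (ℵ_ 2 : Cardinal.{u}) ^ (ℵ₁ : Cardinal.{u}) ≤ ℵ_ 2)
    (c : L → L → Bool)
    (hA0 : ∀ H C : Set L, ℵ_ 2 ≤ #H → ℵ₁ ≤ #C → (∀ x ∈ H, ∀ y ∈ C, x < y) →
      Hom c false H → Hom c false C → (∀ x ∈ H, ∀ y ∈ C, c x y = false) → False)
    (hA1 : ∀ H B : Set L, ℵ_ 2 ≤ #H → B.Infinite → (∀ x ∈ H, ∀ y ∈ B, x < y) →
      Hom c true H → Hom c true B → (∀ x ∈ H, ∀ y ∈ B, c x y = true) → False)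
    (S : Set L) (g0 : Set L → Set L → L)
    (hS : ∀ δ ∈ S, Pos c δ {x | c x δ = false})
    (hS' : ∀ δ, (∀ z0 z1 : Set L, z0 ⊆ Iio δ → z1 ⊆ Iio δ → #z0 ≤ ℵ₁ → #z1 ≤ ℵ₁ →
      g0 z0 z1 < δ) → δ ∈ S) :
    ∃ ε, Pos c ε {γ | γ ∈ S ∧ Pos c γ {x | c x γ = false ∧ c x ε = true}} := by
  have hb : ∀ G : Set L, (∀ x ∈ G, x ∈ S) →
      (∀ x ∈ G, ∀ y ∈ G, y < x → ¬ Pos c y {w | c w y = false ∧ c w x = true}) →
      ∃ b, ∀ x ∈ G, x < b := by
    intro G hGS hG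
    by_contra hcon
    push Not at hcon
    -- apply the previous lemma to the subtype
    have hbd' : ∀ s : Set G, #s ≤ ℵ_ 2 → ∃ b, ∀ x ∈ s, x < b := by
      intro s hs
      obtain ⟨b, hb⟩ := hbd (Subtype.val '' s) (mk_image_le.trans hs)
      obtain ⟨b', hb'G, hb'⟩ := hcon b
      exact ⟨⟨b', hb'G⟩, fun x hx => Subtype.coe_lt_coe.1 ((hb x.1 ⟨x, hx, rfl⟩).trans_le hb')⟩
    have hin' : ∀ a : G, #(Iio a) ≤ ℵ_ 2 := by
      intro a
      refine le_trans ?_ (hin a.1)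
      refine mk_le_of_injective (f := fun x : Iio a => (⟨x.1.1, x.2⟩ : Iio a.1)) ?_
      intro x y hxy
      simpa [Subtype.ext_iff] using hxy
    have hb' : ∀ B : Set G, Hom (fun x y : G => c x.1 y.1) true B → ∃ b, ∀ x ∈ B, x < b := by
      intro B hB
      obtain ⟨b, hb⟩ := bounded_true hbd hin c hA1 (Subtype.val '' B) (by
        rintro _ ⟨x, hx, rfl⟩ _ ⟨y, hy, rfl⟩ hxy
        exact hB x hx y hy hxy)
      obtain ⟨b', hb'G, hb'⟩ := hcon b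
      exact ⟨⟨b', hb'G⟩, fun x hx => Subtype.coe_lt_coe.1 ((hb x.1 ⟨x, hx, rfl⟩).trans_le hb')⟩
    obtain ⟨a0, -⟩ := hbd' ∅ (by simp)
    obtain ⟨H, -, hH2, hH⟩ := exists_hom_false hbd' hin' h21 (fun x y : G => c x.1 y.1) hb'
      (fun _ _ => a0) univ (fun _ _ => mem_univ _)
    have hHne : H.Nonempty := by
      rw [← Set.nonempty_coe_sort, ← mk_ne_zero_iff]
      intro h0
      rw [h0] at hH2
      exact absurd hH2 (not_le.2 (aleph_pos 2))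
    let γ0 := WellFounded.min (wellFounded_lt (α := G)) H hHne
    have hγ0 : γ0 ∈ H := WellFounded.min_mem _ _ _
    have hγ0' : ∀ x ∈ H, γ0 ≤ x := fun x hx =>
      not_lt.1 (WellFounded.not_lt_min (wellFounded_lt (α := G)) H hx)
    have hC1 : ℵ₁ ≤ #(↥(H \ {γ0})) := by
      by_contra hlt
      have hlt' : #(↥(H \ {γ0})) ≤ ℵ₁ := (not_le.1 hlt).le
      have : #H ≤ ℵ₁ := by
        have h1 : H ⊆ (H \ {γ0}) ∪ {γ0} := by
          intro x hx
          by_cases h : x = γ0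
          · exact Or.inr h
          · exact Or.inl ⟨hx, h⟩
        refine (mk_le_mk_of_subset h1).trans (mk_union_le_of (aleph0_le_aleph 1) hlt' ?_)
        exact ((Set.toFinite {γ0}).countable.le_aleph0).trans (aleph0_le_aleph 1)
      have h3 := hH2.trans this
      rw [← not_lt, lt_aleph_two_iff] at h3
      exact h3 le_rfl
    obtain ⟨C, hCH, hC⟩ := le_mk_iff_exists_subset.1 hC1
    have hγC : ∀ x ∈ C, γ0 < x := fun x hx =>
      lt_of_le_of_ne (hγ0' x (hCH hx).1) (fun h => (hCH hx).2 h.symm)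
    -- cover
    let Y : Option C → Set L := fun o => match o with
      | none => {x | c x γ0.1 = false ∧ ∀ e ∈ C, c x e.1 = false}
      | some e => {x | c x γ0.1 = false ∧ c x e.1.1 = true}
    have hι : #(Option C) ≤ ℵ₁ := by
      rw [mk_option, hC, add_one_eq (aleph0_le_aleph 1)]
    obtain ⟨j, hj⟩ := (hS γ0.1 (hGS _ γ0.2)).exists_of_iUnion hι Y (by
      intro x hx _
      by_cases h : ∀ e ∈ C, c x e.1 = false
      · exact ⟨none, hx, h⟩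
      · push Not at h
        obtain ⟨e, he, he'⟩ := h
        exact ⟨some ⟨e, he⟩, hx, by simpa using he'⟩)
    rcases j with _ | e
    · obtain ⟨H', hH'1, hH'2, hH'3⟩ := hj.exists_hom (i := false) (fun x hx _ => hx.1)
      refine hA0 H' (Subtype.val '' C) hH'2 ?_ ?_ hH'3 ?_ ?_
      · rw [mk_image_eq Subtype.val_injective, hC]
      · rintro x hx _ ⟨y, hy, rfl⟩
        exact (hH'1 x hx).2.trans (hγC y hy)
      · rintro _ ⟨x, hx, rfl⟩ _ ⟨y, hy, rfl⟩ hxy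
        exact hH x (hCH hx).1 y (hCH hy).1 hxy
      · rintro x hx _ ⟨y, hy, rfl⟩
        exact (hH'1 x hx).1.2 y hy
    · exact hG e.1.1 e.1.2 γ0.1 γ0.2 (hγC e.1 e.2) hj
  obtain ⟨g, hg⟩ := exists_reflect c
    (fun y x => ¬ Pos c y {w | c w y = false ∧ c w x = true}) S hb
  obtain ⟨ε, hε⟩ := exists_closed hbd hin h21 (fun z0 z1 => max (g0 z0 z1) (g z0 z1))
  have h1 : ε ∈ S := hS' ε (fun z0 z1 a b c d => (le_max_left _ _).trans_lt (hε z0 z1 a b c d))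
  have h2 := hg ε h1 (fun z0 z1 a b c d => (le_max_right _ _).trans_lt (hε z0 z1 a b c d))
  refine ⟨ε, h2.mono (fun x hx _ => ⟨hx.1, not_not.1 hx.2⟩)⟩

/-- shrinking lemma -/
theorem shrink
    (h10 : (ℵ₁ : Cardinal.{u}) ^ (ℵ₀ : Cardinal.{u}) ≤ ℵ₁)
    (c : L → L → Bool)
    (hA0 : ∀ H C : Set L, ℵ_ 2 ≤ #H → ℵ₁ ≤ #C → (∀ x ∈ H, ∀ y ∈ C, x < y) →
      Hom c false H → Hom c false C → (∀ x ∈ H, ∀ y ∈ C, c x y = false) → False)
    (W : Set L) (hW : #W ≤ ℵ₁) (hW' : Hom c false W)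
    (t : L) (ht : Pos c t {x | c x t = false})
    (C : Set L) (hCW : C ⊆ W) (hC : ℵ₁ ≤ #C) (htC : ∀ s ∈ C, t < s) :
    ∃ A : Set L, A ⊆ C ∧ ℵ₁ ≤ #A ∧ ∀ E : Set L, E ⊆ A → #E ≤ ℵ₀ →
      Pos c t {x | c x t = false ∧ ∀ s ∈ E, c x s = true} := by
  by_contra hcon
  push Not at hcon
  let ι : Type u := {E : Set L // E ⊆ W ∧ #E ≤ ℵ₀}
  have hι : #ι ≤ ℵ₁ := by
    refine (mk_bounded_subset_le W ℵ₀).trans ?_
    exact (power_le_power_right (max_le hW (aleph0_le_aleph 1))).trans h10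
  have hιι : #(ι ⊕ ι) ≤ ℵ₁ := by
    calc #(ι ⊕ ι) = #ι + #ι := by rw [add_def]
      _ ≤ ℵ₁ + ℵ₁ := add_le_add hι hι
      _ = ℵ₁ := add_eq_self (aleph0_le_aleph 1)
  let Y : ι ⊕ ι → Set L := fun j => match j with
    | Sum.inl E => {x | (c x t = false ∧ ∀ s ∈ E.1, c x s = true) ∧
        ¬ Pos c t {x | c x t = false ∧ ∀ s ∈ E.1, c x s = true}}
    | Sum.inr E => {x | c x t = false ∧ ∀ s ∈ C, s ∉ E.1 → c x s = false}
  obtain ⟨j, hj⟩ := ht.exists_of_iUnion hιι Y (by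
    intro x hx _
    by_cases h : ℵ₁ ≤ #(↥{s | s ∈ C ∧ c x s = true})
    · obtain ⟨E, hE, hE1, hE2⟩ := hcon {s | s ∈ C ∧ c x s = true} (fun s hs => hs.1) h
      exact ⟨Sum.inl ⟨E, fun s hs => hCW (hE hs).1, hE1⟩, ⟨hx, fun s hs => (hE hs).2⟩, hE2⟩
    · have h' : #(↥{s | s ∈ C ∧ c x s = true}) ≤ ℵ₀ := by
        rw [not_le, lt_aleph_one_iff] at h
        exact h
      refine ⟨Sum.inr ⟨{s | s ∈ C ∧ c x s = true}, fun s hs => hCW hs.1, h'⟩, hx, ?_⟩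
      intro s hs hs'
      by_contra hne
      exact hs' ⟨hs, by simpa using hne⟩)
  rcases j with E | E
  · obtain ⟨γ, h1, -, -⟩ := hj ∅ (by simp) (by simp)
    exact h1.2 (hj.mono fun x hx _ => hx.1)
  · obtain ⟨H, hH1, hH2, hH3⟩ := hj.exists_hom (i := false) (fun x hx _ => hx.1)
    refine hA0 H (C \ E.1) hH2 ?_ ?_ hH3 ?_ ?_
    · by_contra hlt
      rw [not_le, lt_aleph_one_iff] at hlt
      have h1 : C ⊆ (C \ E.1) ∪ E.1 := by
        intro x hx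
        by_cases h : x ∈ E.1
        · exact Or.inr h
        · exact Or.inl ⟨hx, h⟩
      have h2 : #C ≤ ℵ₀ := (mk_le_mk_of_subset h1).trans (mk_union_le_of le_rfl hlt E.2.2)
      exact absurd (hC.trans h2) (not_le.2 aleph0_lt_aleph_one)
    · intro x hx y hy
      exact (hH1 x hx).2.trans (htC y hy.1)
    · intro x hx y hy hxy
      exact hW' x (hCW hx.1) y (hCW hy.1) hxy
    · intro x hx y hy
      exact (hH1 x hx).1.2 y hy.1 hy.2

/-- the spine -/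
theorem exists_spine
    (h10 : (ℵ₁ : Cardinal.{u}) ^ (ℵ₀ : Cardinal.{u}) ≤ ℵ₁)
    (c : L → L → Bool)
    (hA0 : ∀ H C : Set L, ℵ_ 2 ≤ #H → ℵ₁ ≤ #C → (∀ x ∈ H, ∀ y ∈ C, x < y) →
      Hom c false H → Hom c false C → (∀ x ∈ H, ∀ y ∈ C, c x y = false) → False)
    (W : Set L) (hW : #W = ℵ₁) (hW' : Hom c false W)
    (hWS : ∀ t ∈ W, Pos c t {x | c x t = false}) :
    ∃ t : ℕ → L, (∀ n, t n ∈ W) ∧ (∀ n, t n < t (n + 1)) ∧
      ∀ n, Pos c (t n) {x | c x (t n) = false ∧ ∀ m, n < m → c x (t m) = true} := by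
  have hmin : ∀ A : Set L, A ⊆ W → ℵ₁ ≤ #A → ∃ t ∈ A, ∃ A' : Set L, A' ⊆ A ∧ ℵ₁ ≤ #A' ∧
      (∀ s ∈ A', t < s) ∧ ∀ E : Set L, E ⊆ A' → #E ≤ ℵ₀ →
        Pos c t {x | c x t = false ∧ ∀ s ∈ E, c x s = true} := by
    intro A hAW hA
    have hne : A.Nonempty := by
      rw [← Set.nonempty_coe_sort, ← mk_ne_zero_iff]
      intro h0
      rw [h0] at hA
      exact absurd hA (not_le.2 (aleph_pos 1))
    let t := WellFounded.min (wellFounded_lt (α := L)) A hne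
    have ht : t ∈ A := WellFounded.min_mem _ _ _
    have ht' : ∀ x ∈ A, t ≤ x := fun x hx =>
      not_lt.1 (WellFounded.not_lt_min (wellFounded_lt (α := L)) A hx)
    have hC1 : ℵ₁ ≤ #(↥(A \ {t})) := by
      by_contra hlt
      rw [not_le, lt_aleph_one_iff] at hlt
      have h1 : A ⊆ (A \ {t}) ∪ {t} := by
        intro x hx
        by_cases h : x = t
        · exact Or.inr h
        · exact Or.inl ⟨hx, h⟩
      have h2 : #A ≤ ℵ₀ := (mk_le_mk_of_subset h1).trans (mk_union_le_of le_rfl hlt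
        ((Set.toFinite {t}).countable.le_aleph0))
      exact absurd (hA.trans h2) (not_le.2 aleph0_lt_aleph_one)
    have htC : ∀ s ∈ A \ {t}, t < s := fun x hx =>
      lt_of_le_of_ne (ht' x hx.1) (fun h => hx.2 h.symm)
    obtain ⟨A', hA'1, hA'2, hA'3⟩ := shrink h10 c hA0 W hW.le hW' t (hWS t (hAW ht)) (A \ {t})
      (fun x hx => hAW hx.1) hC1 htC
    exact ⟨t, ht, A', fun x hx => (hA'1 hx).1, hA'2, fun s hs => htC s (hA'1 hs), hA'3⟩
  have : Nonempty L := by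
    obtain ⟨t, -, -⟩ := hmin W subset_rfl hW.ge
    exact ⟨t⟩
  choose! τ hτ F hF1 hF2 hF3 hF4 using hmin
  let A : ℕ → Set L := fun n => F^[n] W
  have hAs : ∀ n, A (n + 1) = F (A n) := fun n => Function.iterate_succ_apply' F n W
  have hA : ∀ n, A n ⊆ W ∧ ℵ₁ ≤ #(A n) := by
    intro n
    induction n with
    | zero => exact ⟨subset_rfl, hW.ge⟩
    | succ n ih =>
      rw [hAs]
      exact ⟨(hF1 _ ih.1 ih.2).trans ih.1, hF2 _ ih.1 ih.2⟩
  have hAmono : ∀ n k, A (n + k) ⊆ A n := by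
    intro n k
    induction k with
    | zero => exact subset_rfl
    | succ k ih =>
      have : A (n + (k + 1)) = F (A (n + k)) := hAs (n + k)
      rw [this]
      exact (hF1 _ (hA _).1 (hA _).2).trans ih
  have htA : ∀ n m, n < m → τ (A m) ∈ A (n + 1) := by
    intro n m hnm
    obtain ⟨k, rfl⟩ := Nat.exists_eq_add_of_le (Nat.succ_le_of_lt hnm)
    exact hAmono (n + 1) k (hτ _ (hA _).1 (hA _).2)
  refine ⟨fun n => τ (A n), fun n => (hA n).1 (hτ _ (hA n).1 (hA n).2), fun n => ?_, fun n => ?_⟩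
  · have h3 : A (n + 1) ⊆ F (A n) := (hAs n).le
    exact hF3 _ (hA n).1 (hA n).2 _ (h3 (htA n (n + 1) (Nat.lt_succ_self n)))
  · have h1 : (⋃ m : {m : ℕ // n < m}, ({τ (A m.1)} : Set L)) ⊆ F (A n) := by
      intro x hx
      simp only [mem_iUnion, mem_singleton_iff] at hx
      obtain ⟨m, rfl⟩ := hx
      rw [← hAs]
      exact htA n m.1 m.2
    have h2 : (⋃ m : {m : ℕ // n < m}, ({τ (A m.1)} : Set L)).Countable :=
      Set.countable_iUnion fun m => Set.countable_singleton _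
    have := hF4 _ (hA n).1 (hA n).2 _ h1 h2.le_aleph0
    refine this.mono (fun x hx _ => ⟨hx.1, fun m hm => hx.2 _ ?_⟩)
    exact mem_iUnion.2 ⟨⟨m, hm⟩, rfl⟩

/-- the blocks -/
theorem exists_blocks
    (c : L → L → Bool) (ε : L) (t : ℕ → L) (ht : ∀ n, t n < t (n + 1)) (hε : ∀ n, ε < t n)
    (hpos : ∀ n, Pos c (t n) {x | c x (t n) = false ∧ ∀ m, n < m → c x (t m) = true}) :
    ∃ T : ℕ → Set L, (∀ n, #(T n) = ℵ₁ ∧ Hom c false (T n) ∧ ∀ y ∈ T n, ε < y) ∧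
      ∀ i n, i < n → ∀ x ∈ T i, ∀ y ∈ T n, x < y ∧ c x y = true := by
  have hstep : ∀ (n : ℕ) (z : Set L), ∃ T : Set L, (z ⊆ Iio (t n) → #z ≤ ℵ₁ →
      (∀ x ∈ z, c x (t n) = true) → #T = ℵ₁ ∧ Hom c false T ∧ ∀ y ∈ T, y < t n ∧ ε < y ∧
        (∀ m, n < m → c y (t m) = true) ∧ ∀ x ∈ z, x < y ∧ c x y = true) := by
    intro n z
    by_cases h : z ⊆ Iio (t n) ∧ #z ≤ ℵ₁ ∧ ∀ x ∈ z, c x (t n) = true
    · obtain ⟨h1, h2, h3⟩ := h
      have h4 := (hpos n).inter (z := z ∪ {ε}) (union_subset h1 (by simpa using hε n))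
        (mk_union_le_of (aleph0_le_aleph 1) h2
          (((Set.toFinite {ε}).countable.le_aleph0).trans (aleph0_le_aleph 1)))
      obtain ⟨H, hH1, hH2, hH3⟩ := h4.exists_hom (i := false) (fun x hx _ => hx.1.1)
      obtain ⟨T, hTH, hT⟩ := le_mk_iff_exists_subset.1 (aleph_one_le_aleph_two.trans hH2)
      refine ⟨T, fun _ _ _ => ⟨hT, fun x hx y hy hxy => hH3 x (hTH hx) y (hTH hy) hxy, ?_⟩⟩
      intro y hy
      have hy' := hH1 y (hTH hy)
      refine ⟨hy'.2, (hy'.1.2 ε (Or.inr rfl)).1, hy'.1.1.2, fun x hx => ?_⟩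
      have := hy'.1.2 x (Or.inl hx)
      exact ⟨this.1, this.2.trans (h3 x hx)⟩
    · exact ⟨∅, fun h1 h2 h3 => absurd ⟨h1, h2, h3⟩ h⟩
  choose F hF using hstep
  have htm : StrictMono t := strictMono_nat_of_lt_succ ht
  let z : ℕ → Set L := fun n => Nat.rec ∅ (fun n zn => zn ∪ F n zn) n
  have hz0 : z 0 = ∅ := rfl
  have hzs : ∀ n, z (n + 1) = z n ∪ F n (z n) := fun n => rfl
  have hinv : ∀ n, z n ⊆ Iio (t n) ∧ #(↥(z n)) ≤ ℵ₁ ∧ ∀ x ∈ z n, ∀ m, n ≤ m → c x (t m) = true := by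
    intro n
    induction n with
    | zero =>
      rw [hz0]
      exact ⟨empty_subset _, by simp, by simp⟩
    | succ n ih =>
      obtain ⟨h1, h2, h3⟩ := ih
      obtain ⟨k1, k2, k3⟩ := hF n (z n) h1 h2 (fun x hx => h3 x hx n le_rfl)
      rw [hzs]
      refine ⟨?_, mk_union_le_of (aleph0_le_aleph 1) h2 k1.le, ?_⟩
      · rintro x (hx | hx)
        · exact lt_trans (h1 hx) (ht n)
        · exact lt_trans (k3 x hx).1 (ht n)
      · rintro x (hx | hx) m hm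
        · exact h3 x hx m (by omega)
        · exact (k3 x hx).2.2.1 m (by omega)
  have hzmono : ∀ i n, i < n → F i (z i) ⊆ z n := by
    intro i n hin
    induction n with
    | zero => omega
    | succ n ih =>
      rw [hzs]
      rcases Nat.lt_succ_iff_lt_or_eq.1 hin with h | h
      · exact (ih h).trans subset_union_left
      · subst h
        exact subset_union_right
  refine ⟨fun n => F n (z n), fun n => ?_, fun i n hin x hx y hy => ?_⟩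
  · obtain ⟨h1, h2, h3⟩ := hinv n
    obtain ⟨k1, k2, k3⟩ := hF n (z n) h1 h2 (fun x hx => h3 x hx n le_rfl)
    exact ⟨k1, k2, fun y hy => (k3 y hy).2.1⟩
  · obtain ⟨h1, h2, h3⟩ := hinv n
    obtain ⟨k1, k2, k3⟩ := hF n (z n) h1 h2 (fun x hx => h3 x hx n le_rfl)
    exact (k3 y hy).2.2.2 x (hzmono i n hin hx)

/-- the main contradiction -/
theorem main_false
    (hbd : ∀ s : Set L, #s ≤ ℵ_ 2 → ∃ b, ∀ x ∈ s, x < b)
    (hin : ∀ a : L, #(Iio a) ≤ ℵ_ 2)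
    (h21 : (ℵ_ 2 : Cardinal.{u}) ^ (ℵ₁ : Cardinal.{u}) ≤ ℵ_ 2)
    (h10 : (ℵ₁ : Cardinal.{u}) ^ (ℵ₀ : Cardinal.{u}) ≤ ℵ₁)
    (c : L → L → Bool)
    (hA0 : ∀ H C : Set L, ℵ_ 2 ≤ #H → ℵ₁ ≤ #C → (∀ x ∈ H, ∀ y ∈ C, x < y) →
      Hom c false H → Hom c false C → (∀ x ∈ H, ∀ y ∈ C, c x y = false) → False)
    (hA1 : ∀ H B : Set L, ℵ_ 2 ≤ #H → B.Infinite → (∀ x ∈ H, ∀ y ∈ B, x < y) →
      Hom c true H → Hom c true B → (∀ x ∈ H, ∀ y ∈ B, c x y = true) → False) : False := by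
  have hbt : ∀ G : Set L, Hom c true G → ∃ b, ∀ x ∈ G, x < b := bounded_true hbd hin c hA1
  let S : Set L := {t | Pos c t {x | c x t = false}}
  obtain ⟨g0, hg0⟩ := exists_reflect c (fun y x => c y x = true) univ
    (fun G _ h => hbt G (fun x hx y hy hxy => h y hy x hx hxy))
  have hS' : ∀ δ, (∀ z0 z1 : Set L, z0 ⊆ Iio δ → z1 ⊆ Iio δ → #z0 ≤ ℵ₁ → #z1 ≤ ℵ₁ →
      g0 z0 z1 < δ) → δ ∈ S := fun δ hδ =>
    (hg0 δ (mem_univ _) hδ).mono (fun x hx _ => by simpa using hx.2)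
  obtain ⟨ε, hε⟩ := exists_rich hbd hin h21 c hA0 hA1 S g0 (fun δ hδ => hδ) hS'
  obtain ⟨W0, hW01, hW02, hW03⟩ := exists_hom_false hbd hin h21 c hbt
    (fun z0 z1 => max (g0 z0 z1) ε) (S ∩ Ioi ε) (fun δ hδ =>
      ⟨hS' δ fun z0 z1 a b c d => (le_max_left _ _).trans_lt (hδ z0 z1 a b c d),
        (le_max_right _ _).trans_lt (hδ ∅ ∅ (by simp) (by simp) (by simp) (by simp))⟩)
  obtain ⟨W, hWW, hW⟩ := le_mk_iff_exists_subset.1 (aleph_one_le_aleph_two.trans hW02)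
  obtain ⟨t, htW, ht, hpos⟩ := exists_spine h10 c hA0 W hW
    (fun x hx y hy hxy => hW03 x (hWW hx) y (hWW hy) hxy) (fun t ht => (hW01 (hWW ht)).1)
  obtain ⟨T, hT1, hT2⟩ := exists_blocks c ε t ht (fun n => (hW01 (hWW (htW n))).2) hpos
  -- countable subsets of the union of the blocks
  let U : Set L := ⋃ n : ULift.{u} ℕ, T n.down
  have hU : #U ≤ ℵ₁ := by
    refine mk_iUnion_le_of (aleph0_le_aleph 1) ?_ (fun n => (hT1 n.down).1.le)
    simp [aleph0_le_aleph 1]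
  let ι : Type u := {E : Set L // E ⊆ U ∧ #E ≤ ℵ₀}
  have hι : #ι ≤ ℵ₁ := by
    refine (mk_bounded_subset_le U ℵ₀).trans ?_
    exact (power_le_power_right (max_le hU (aleph0_le_aleph 1))).trans h10
  have hιι : #(ULift.{u} ℕ ⊕ ι) ≤ ℵ₁ := by
    calc #(ULift.{u} ℕ ⊕ ι) = #(ULift.{u} ℕ) + #ι := by rw [add_def]
      _ ≤ ℵ₁ + ℵ₁ := add_le_add (by simp [aleph0_le_aleph 1]) hι
      _ = ℵ₁ := add_eq_self (aleph0_le_aleph 1)
  have hstep : ∀ γ, γ < ε → Pos c γ {x | c x γ = false ∧ c x ε = true} →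
      ∃ B : ι, B.1.Infinite ∧ Hom c true B.1 ∧
        Pos c γ {x | c x ε = true ∧ ∀ s ∈ B.1, c x s = true} := by
    intro γ hγε hγ
    let Y : ULift.{u} ℕ ⊕ ι → Set L := fun j => match j with
      | Sum.inl n => {x | c x γ = false ∧ ∀ s ∈ T n.down, c x s = false}
      | Sum.inr B => {x | (c x ε = true ∧ ∀ s ∈ B.1, c x s = true) ∧
          (B.1.Infinite ∧ Hom c true B.1)}
    obtain ⟨j, hj⟩ := hγ.exists_of_iUnion hιι Y (by
      intro x hx _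
      by_cases h : ∃ n : ℕ, ∀ s ∈ T n, c x s = false
      · obtain ⟨n, hn⟩ := h
        exact ⟨Sum.inl ⟨n⟩, hx.1, hn⟩
      · push Not at h
        choose s hs hs' using h
        have hsm : StrictMono s := strictMono_nat_of_lt_succ fun n =>
          (hT2 n (n + 1) (Nat.lt_succ_self n) _ (hs n) _ (hs (n + 1))).1
        have hsU : range s ⊆ U := by
          rintro _ ⟨n, rfl⟩
          exact mem_iUnion.2 ⟨⟨n⟩, hs n⟩
        refine ⟨Sum.inr ⟨range s, hsU, (countable_range s).le_aleph0⟩, ⟨hx.2, ?_⟩, ?_, ?_⟩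
        · rintro _ ⟨n, rfl⟩
          simpa using hs' n
        · exact infinite_range_of_injective hsm.injective
        · rintro _ ⟨i, rfl⟩ _ ⟨k, rfl⟩ hik
          exact (hT2 i k (hsm.lt_iff_lt.1 hik) _ (hs i) _ (hs k)).2)
    rcases j with n | B
    · exfalso
      obtain ⟨H, hH1, hH2, hH3⟩ := hj.exists_hom (i := false) (fun x hx _ => hx.1)
      refine hA0 H (T n.down) hH2 (hT1 n.down).1.ge ?_ hH3 (hT1 n.down).2.1 ?_
      · intro x hx y hy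
        exact ((hH1 x hx).2.trans hγε).trans ((hT1 n.down).2.2 y hy)
      · intro x hx y hy
        exact (hH1 x hx).1.2 y hy
    · obtain ⟨x, hx, -, -⟩ := hj ∅ (by simp) (by simp)
      exact ⟨B, hx.2.1, hx.2.2, hj.mono fun x hx _ => hx.1⟩
  let Z : ι → Set L := fun B => {γ | B.1.Infinite ∧ Hom c true B.1 ∧
        Pos c γ {x | c x ε = true ∧ ∀ s ∈ B.1, c x s = true}}
  obtain ⟨B, hB⟩ := hε.exists_of_iUnion hι Z (by
    intro γ hγ hγε
    obtain ⟨B, hB⟩ := hstep γ hγε hγ.2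
    exact ⟨B, hB⟩)
  obtain ⟨γ0, hγ0, -, -⟩ := hB ∅ (by simp) (by simp)
  obtain ⟨H, hH⟩ := exists_greedy (fun y x => c y x = true)
    {x | x < ε ∧ c x ε = true ∧ ∀ s ∈ B.1, c x s = true}
  have hHP : ∀ x ∈ H, x < ε ∧ c x ε = true ∧ ∀ s ∈ B.1, c x s = true :=
    fun x hx => ((hH x).1 hx).1
  have hHhom : Hom c true H := fun x hx y hy hxy => ((hH y).1 hy).2 x hxy hx
  have hBε : ∀ s ∈ B.1, ε < s := by
    intro s hs
    obtain ⟨n, hn⟩ := mem_iUnion.1 (B.2.1 hs)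
    exact (hT1 n.down).2.2 s hn
  refine hA1 H B.1 ?_ hγ0.1 (fun x hx y hy => (hHP x hx).1.trans (hBε y hy)) hHhom hγ0.2.1
    (fun x hx y hy => (hHP x hx).2.2 y hy)
  by_contra hlt
  rw [not_le, lt_aleph_two_iff] at hlt
  obtain ⟨γ, h1, h2, h3⟩ := hB H (fun x hx => (hHP x hx).1) hlt
  obtain ⟨y, k1, k2, k3⟩ := h1.2.2 H (fun x hx => (h3 x hx).1) hlt
  have hy : y ∈ H := by
    rw [hH]
    refine ⟨⟨k2.trans h2, k1.1, k1.2⟩, fun x hxy hx => ?_⟩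
    rw [(k3 x hx).2, (h3 x hx).2]
    exact (hHP x hx).2.1
  exact lt_irrefl _ (k3 y hy).1

end Abstract

end Pool.Agent.W_MP_cc6734_lc
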